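import Pool.Agent.Lib.MP_2d002d_gt.Basic

/-!
# distance to an interpolated convex set (helper67, module Sets of MP_2d002d_gt)
-/

set_option autoImplicit false

open MeasureTheory Set Filter Topology
open scoped ContDiff ENNReal Pointwise

namespace Pool.Agent.Lib.MP_2d002d_gt
namespace H67

variable {n : ℕ}

/-- interpolated set -/
def Kc (K0 K1 : Set (Fin n → ℝ)) (s : ℝ) : Set (Fin n → ℝ) := (1 - s) • K0 + s • K1

/-- clamp to `[0,1]` -/
noncomputable def cl (s : ℝ) : ℝ := (Set.projIcc (0 : ℝ) 1 zero_le_one s : ℝ)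

lemma cl_mem (s : ℝ) : cl s ∈ Icc (0 : ℝ) 1 := (Set.projIcc (0 : ℝ) 1 zero_le_one s).2

lemma cl_of_mem {s : ℝ} (hs : s ∈ Icc (0 : ℝ) 1) : cl s = s := by
  unfold cl
  rw [Set.projIcc_of_mem zero_le_one hs]

lemma cl_lip (s s' : ℝ) : |cl s - cl s'| ≤ |s - s'| := by
  have h := (LipschitzWith.projIcc (zero_le_one (α := ℝ))).dist_le_mul s s'
  rw [NNReal.coe_one, one_mul] at h
  exact h

/-- the distance function -/
noncomputable def DD (K0 K1 : Set (Fin n → ℝ)) (z : (Fin n → ℝ) × ℝ) : ℝ :=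
  Metric.infDist z.1 (Kc K0 K1 (cl z.2))

variable {K0 K1 : Set (Fin n → ℝ)}

lemma Kc_nonempty (h0 : K0.Nonempty) (h1 : K1.Nonempty) (s : ℝ) : (Kc K0 K1 s).Nonempty :=
  (h0.smul_set).add (h1.smul_set)

lemma mem_Kc {s : ℝ} {x : Fin n → ℝ} :
    x ∈ Kc K0 K1 s ↔ ∃ u ∈ K0, ∃ v ∈ K1, x = (1 - s) • u + s • v := by
  unfold Kc
  rw [Set.mem_add]
  constructor
  · rintro ⟨p, hp, q, hq, rfl⟩
    obtain ⟨u, hu, rfl⟩ := Set.mem_smul_set.1 hp
    obtain ⟨v, hv, rfl⟩ := Set.mem_smul_set.1 hq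
    exact ⟨u, hu, v, hv, rfl⟩
  · rintro ⟨u, hu, v, hv, rfl⟩
    exact ⟨_, Set.smul_mem_smul_set hu, _, Set.smul_mem_smul_set hv, rfl⟩

lemma convex_Kc (h0 : Convex ℝ K0) (h1 : Convex ℝ K1) (s : ℝ) : Convex ℝ (Kc K0 K1 s) :=
  (h0.smul _).add (h1.smul _)

lemma neg_mem_Kc (h0 : ∀ x ∈ K0, -x ∈ K0) (h1 : ∀ x ∈ K1, -x ∈ K1) {s : ℝ} {x : Fin n → ℝ}
    (hx : x ∈ Kc K0 K1 s) : -x ∈ Kc K0 K1 s := by
  obtain ⟨u, hu, v, hv, rfl⟩ := mem_Kc.1 hx
  refine mem_Kc.2 ⟨-u, h0 u hu, -v, h1 v hv, ?_⟩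
  rw [smul_neg, smul_neg, neg_add]

lemma infDist_Kc_le (hne0 : K0.Nonempty) (hne1 : K1.Nonempty) {C : ℝ}
    (hC : ∀ u ∈ K0, ∀ v ∈ K1, ‖v - u‖ ≤ C) (x : Fin n → ℝ) (s s' : ℝ) :
    Metric.infDist x (Kc K0 K1 s') ≤ Metric.infDist x (Kc K0 K1 s) + C * |s - s'| := by
  apply le_of_forall_pos_le_add
  intro ε hε
  obtain ⟨y, hy, hxy⟩ := (Metric.infDist_lt_iff (Kc_nonempty hne0 hne1 s)).1
    (lt_add_of_pos_right (Metric.infDist x (Kc K0 K1 s)) hε)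
  obtain ⟨u, hu, v, hv, rfl⟩ := mem_Kc.1 hy
  have hy' : (1 - s') • u + s' • v ∈ Kc K0 K1 s' := mem_Kc.2 ⟨u, hu, v, hv, rfl⟩
  have h1 := Metric.infDist_le_dist_of_mem (x := x) hy'
  have h2 := dist_triangle x ((1 - s) • u + s • v) ((1 - s') • u + s' • v)
  have h3 : dist ((1 - s) • u + s • v) ((1 - s') • u + s' • v) ≤ C * |s - s'| := by
    rw [dist_eq_norm]
    have : (1 - s) • u + s • v - ((1 - s') • u + s' • v) = (s - s') • (v - u) := by
      module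
    rw [this, norm_smul, Real.norm_eq_abs, mul_comm]
    exact mul_le_mul_of_nonneg_right (hC u hu v hv) (abs_nonneg _)
  linarith

lemma DD_lip (hne0 : K0.Nonempty) (hne1 : K1.Nonempty) {C : ℝ} (hC0 : 0 ≤ C)
    (hC : ∀ u ∈ K0, ∀ v ∈ K1, ‖v - u‖ ≤ C) (z z' : (Fin n → ℝ) × ℝ) :
    |DD K0 K1 z - DD K0 K1 z'| ≤ (1 + C) * ‖z - z'‖ := by
  have key : ∀ z z' : (Fin n → ℝ) × ℝ, DD K0 K1 z - DD K0 K1 z' ≤ (1 + C) * ‖z - z'‖ := by
    intro z z'
    unfold DD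
    have h1 := infDist_Kc_le hne0 hne1 hC z.1 (cl z'.2) (cl z.2)
    have h2 : Metric.infDist z.1 (Kc K0 K1 (cl z'.2)) ≤
        Metric.infDist z'.1 (Kc K0 K1 (cl z'.2)) + dist z.1 z'.1 :=
      Metric.infDist_le_infDist_add_dist
    have h3 := cl_lip z'.2 z.2
    have h4 : dist z.1 z'.1 ≤ ‖z - z'‖ := by
      rw [dist_eq_norm]
      exact norm_fst_le (z - z')
    have h5 : |z'.2 - z.2| ≤ ‖z - z'‖ := by
      rw [abs_sub_comm]
      exact norm_snd_le (z - z')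
    have h6 : C * |cl z'.2 - cl z.2| ≤ C * ‖z - z'‖ :=
      mul_le_mul_of_nonneg_left (h3.trans h5) hC0
    linarith
  rw [abs_le]
  constructor
  · have := key z' z
    rw [norm_sub_rev] at this
    linarith
  · exact key z z'

lemma DD_neg (h0 : ∀ x ∈ K0, -x ∈ K0) (h1 : ∀ x ∈ K1, -x ∈ K1) (x : Fin n → ℝ) (s : ℝ) :
    DD K0 K1 (-x, s) = DD K0 K1 (x, s) := by
  unfold DD
  simp only
  have h2 : ∀ x : Fin n → ℝ, Metric.infDist (-x) (Kc K0 K1 (cl s)) ≤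
      Metric.infDist x (Kc K0 K1 (cl s)) := by
    intro x
    rcases Set.eq_empty_or_nonempty (Kc K0 K1 (cl s)) with h | h
    · simp [h]
    apply le_of_forall_pos_le_add
    intro ε hε
    obtain ⟨y, hy, hxy⟩ := (Metric.infDist_lt_iff h).1
      (lt_add_of_pos_right (Metric.infDist x (Kc K0 K1 (cl s))) hε)
    have h3 := Metric.infDist_le_dist_of_mem (x := -x) (neg_mem_Kc h0 h1 hy)
    rw [dist_neg_neg] at h3
    linarith
  apply le_antisymm (h2 x)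
  have := h2 (-x)
  rwa [neg_neg] at this

lemma DD_convex (h0 : Convex ℝ K0) (h1 : Convex ℝ K1) (hne0 : K0.Nonempty) (hne1 : K1.Nonempty) :
    ConvexOn ℝ (univ ×ˢ Icc (0 : ℝ) 1) (DD K0 K1) := by
  refine ⟨convex_univ.prod (convex_Icc 0 1), ?_⟩
  rintro ⟨x, s⟩ hx ⟨y, t⟩ hy a b ha hb hab
  have hs : s ∈ Icc (0 : ℝ) 1 := hx.2
  have ht : t ∈ Icc (0 : ℝ) 1 := hy.2
  have hst : a * s + b * t ∈ Icc (0 : ℝ) 1 := by
    have := (convex_Icc (0 : ℝ) 1) hs ht ha hb hab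
    simpa using this
  unfold DD
  simp only [Prod.smul_mk, Prod.mk_add_mk, smul_eq_mul, cl_of_mem hs, cl_of_mem ht, cl_of_mem hst]
  apply le_of_forall_pos_le_add
  intro ε hε
  obtain ⟨p, hp, hxp⟩ := (Metric.infDist_lt_iff (Kc_nonempty hne0 hne1 s)).1
    (lt_add_of_pos_right (Metric.infDist x (Kc K0 K1 s)) hε)
  obtain ⟨q, hq, hyq⟩ := (Metric.infDist_lt_iff (Kc_nonempty hne0 hne1 t)).1
    (lt_add_of_pos_right (Metric.infDist y (Kc K0 K1 t)) hε)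
  obtain ⟨u, hu, v, hv, rfl⟩ := mem_Kc.1 hp
  obtain ⟨u', hu', v', hv', rfl⟩ := mem_Kc.1 hq
  have hmem : a • ((1 - s) • u + s • v) + b • ((1 - t) • u' + t • v') ∈
      Kc K0 K1 (a * s + b * t) := by
    have e0 : (1 - (a * s + b * t)) • K0 = (a * (1 - s)) • K0 + (b * (1 - t)) • K0 := by
      rw [← h0.add_smul (mul_nonneg ha (by linarith [hs.2])) (mul_nonneg hb (by linarith [ht.2]))]
      congr 1
      have : b = 1 - a := by linarith
      subst this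
      ring
    have e1 : (a * s + b * t) • K1 = (a * s) • K1 + (b * t) • K1 :=
      h1.add_smul (mul_nonneg ha hs.1) (mul_nonneg hb ht.1)
    unfold Kc
    rw [e0, e1]
    have : a • ((1 - s) • u + s • v) + b • ((1 - t) • u' + t • v') =
        ((a * (1 - s)) • u + (b * (1 - t)) • u') + ((a * s) • v + (b * t) • v') := by
      module
    rw [this]
    exact Set.add_mem_add (Set.add_mem_add (Set.smul_mem_smul_set hu) (Set.smul_mem_smul_set hu'))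
      (Set.add_mem_add (Set.smul_mem_smul_set hv) (Set.smul_mem_smul_set hv'))
  have h3 := Metric.infDist_le_dist_of_mem (x := a • x + b • y) hmem
  have h4 : dist (a • x + b • y) (a • ((1 - s) • u + s • v) + b • ((1 - t) • u' + t • v')) ≤
      a * dist x ((1 - s) • u + s • v) + b * dist y ((1 - t) • u' + t • v') := by
    refine (dist_add_add_le _ _ _ _).trans (le_of_eq ?_)
    rw [dist_smul₀, dist_smul₀, Real.norm_of_nonneg ha, Real.norm_of_nonneg hb]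
  have h5 : a * dist x ((1 - s) • u + s • v) ≤ a * (Metric.infDist x (Kc K0 K1 s) + ε) :=
    mul_le_mul_of_nonneg_left hxp.le ha
  have h6 : b * dist y ((1 - t) • u' + t • v') ≤ b * (Metric.infDist y (Kc K0 K1 t) + ε) :=
    mul_le_mul_of_nonneg_left hyq.le hb
  have h7 : a * ε + b * ε = ε := by rw [← add_mul, hab, one_mul]
  nlinarith

lemma DD_nonneg (z : (Fin n → ℝ) × ℝ) : 0 ≤ DD K0 K1 z := Metric.infDist_nonneg

end H67
end Pool.Agent.Lib.MP_2d002d_gt
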