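import Mathlib

/-!
# mollification of a Lipschitz function (helper67, module Sets of MP_2d002d_gt)
-/

set_option autoImplicit false

open MeasureTheory Set Filter Topology
open scoped ContDiff ENNReal Pointwise Convolution

namespace Pool.Agent.Lib.MP_2d002d_gt
namespace H67

variable {E : Type*} [NormedAddCommGroup E] [NormedSpace ℝ E] [FiniteDimensional ℝ E]
  [MeasurableSpace E] [BorelSpace E] (μ : Measure E) [μ.IsAddHaarMeasure]

/-- mollification -/
noncomputable def mol (φ : ContDiffBump (0 : E)) (D : E → ℝ) : E → ℝ :=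
  (φ.normed μ) ⋆[ContinuousLinearMap.lsmul ℝ ℝ, μ] D

omit [BorelSpace E] [μ.IsAddHaarMeasure] in
lemma mol_apply (φ : ContDiffBump (0 : E)) (D : E → ℝ) (z : E) :
    mol μ φ D z = ∫ w, φ.normed μ w * D (z - w) ∂μ := rfl

lemma integrable_mol (φ : ContDiffBump (0 : E)) {D : E → ℝ} (hD : Continuous D) (z : E) :
    Integrable (fun w => φ.normed μ w * D (z - w)) μ := by
  apply Continuous.integrable_of_hasCompactSupport
  · exact φ.continuous_normed.mul (hD.comp (continuous_const.sub continuous_id))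
  · exact φ.hasCompactSupport_normed.mul_right

lemma contDiff_mol (φ : ContDiffBump (0 : E)) {D : E → ℝ} (hD : Continuous D) :
    ContDiff ℝ ∞ (mol μ φ D) := by
  apply HasCompactSupport.contDiff_convolution_left
  · exact φ.hasCompactSupport_normed
  · exact φ.contDiff_normed
  · exact hD.locallyIntegrable

lemma abs_mol_sub_le (φ : ContDiffBump (0 : E)) {D : E → ℝ} (hD : Continuous D) {C : ℝ}
    (hC0 : 0 ≤ C) (hC : ∀ z z', |D z - D z'| ≤ C * ‖z - z'‖) (z : E) :
    |mol μ φ D z - D z| ≤ C * φ.rOut := by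
  have := ContDiffBump.dist_normed_convolution_le (φ := φ) (μ := μ) (g := D) (x₀ := z)
    (ε := C * φ.rOut) hD.aestronglyMeasurable (by
      intro x hx
      rw [Real.dist_eq]
      refine (hC x z).trans ?_
      apply mul_le_mul_of_nonneg_left _ hC0
      rw [← dist_eq_norm]
      exact (Metric.mem_ball.1 hx).le)
  rw [Real.dist_eq] at this
  exact this

lemma mol_lip (φ : ContDiffBump (0 : E)) {D : E → ℝ} (hD : Continuous D) {C : ℝ}
    (hC : ∀ z z', |D z - D z'| ≤ C * ‖z - z'‖) (z z' : E) :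
    |mol μ φ D z - mol μ φ D z'| ≤ C * ‖z - z'‖ := by
  rw [mol_apply, mol_apply, ← integral_sub (integrable_mol μ φ hD z) (integrable_mol μ φ hD z')]
  have h1 : ∀ w, ‖φ.normed μ w * D (z - w) - φ.normed μ w * D (z' - w)‖ ≤
      φ.normed μ w * (C * ‖z - z'‖) := by
    intro w
    rw [← mul_sub, norm_mul, Real.norm_of_nonneg (φ.nonneg_normed w), Real.norm_eq_abs]
    apply mul_le_mul_of_nonneg_left _ (φ.nonneg_normed w)
    have := hC (z - w) (z' - w)
    rwa [sub_sub_sub_cancel_right] at this
  have h2 := norm_integral_le_of_norm_le ((φ.integrable_normed (μ := μ)).mul_const (C * ‖z - z'‖))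
    (Eventually.of_forall h1)
  rw [integral_mul_const, φ.integral_normed, one_mul] at h2
  exact h2

lemma norm_fderiv_mol_le (φ : ContDiffBump (0 : E)) {D : E → ℝ} (hD : Continuous D) {C : ℝ}
    (hC0 : 0 ≤ C) (hC : ∀ z z', |D z - D z'| ≤ C * ‖z - z'‖) (z : E) :
    ‖fderiv ℝ (mol μ φ D) z‖ ≤ C := by
  have h : LipschitzWith ⟨C, hC0⟩ (mol μ φ D) := by
    apply LipschitzWith.of_dist_le_mul
    intro x y
    rw [Real.dist_eq, dist_eq_norm]
    exact mol_lip μ φ hD hC x y
  exact norm_fderiv_le_of_lipschitz ℝ h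

lemma lip_fderiv_mol (φ : ContDiffBump (0 : E)) {D : E → ℝ} (hD : Continuous D) {C : ℝ}
    (hC0 : 0 ≤ C) (hC : ∀ z z', |D z - D z'| ≤ C * ‖z - z'‖) :
    ∃ C' : NNReal, LipschitzWith C' (fderiv ℝ (mol μ φ D)) := by
  set L := ContinuousLinearMap.lsmul ℝ ℝ (E := ℝ) with hL
  have hs : HasCompactSupport (fderiv ℝ (φ.normed μ)) := φ.hasCompactSupport_normed.fderiv (𝕜 := ℝ)
  have hc : Continuous (fderiv ℝ (φ.normed μ)) :=
    (φ.contDiff_normed (n := 1)).continuous_fderiv (by simp)
  have hfd : ∀ z, fderiv ℝ (mol μ φ D) z = ∫ w, L.precompL E (fderiv ℝ (φ.normed μ) w) (D (z - w)) ∂μ := by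
    intro z
    exact (HasCompactSupport.hasFDerivAt_convolution_left L φ.hasCompactSupport_normed
      (φ.contDiff_normed (n := 1)) hD.locallyIntegrable z).fderiv
  have hint : ∀ z, Integrable (fun w => L.precompL E (fderiv ℝ (φ.normed μ) w) (D (z - w))) μ := by
    intro z
    exact (HasCompactSupport.convolutionExists_left (L.precompL E) hs hc hD.locallyIntegrable) z
  have hI : Integrable (fun w => ‖fderiv ℝ (φ.normed μ) w‖) μ :=
    (hc.integrable_of_hasCompactSupport hs).norm
  set I := ∫ w, ‖fderiv ℝ (φ.normed μ) w‖ ∂μ with hIdef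
  have hI0 : 0 ≤ I := integral_nonneg (fun _ => norm_nonneg _)
  have hb : ∀ (A : E →L[ℝ] ℝ) (d : ℝ), ‖L.precompL E A d‖ ≤ ‖A‖ * |d| := by
    intro A d
    apply ContinuousLinearMap.opNorm_le_bound _ (by positivity)
    intro v
    have : (L.precompL E A d) v = A v * d := by
      rw [ContinuousLinearMap.precompL_apply]
      rfl
    rw [this, norm_mul, Real.norm_eq_abs d]
    have h := A.le_opNorm v
    have h2 := abs_nonneg d
    nlinarith
  refine ⟨⟨C * I, by positivity⟩, ?_⟩
  · apply LipschitzWith.of_dist_le_mul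
    intro x y
    rw [dist_eq_norm, dist_eq_norm, hfd, hfd, ← integral_sub (hint x) (hint y)]
    have h1 : ∀ w, ‖L.precompL E (fderiv ℝ (φ.normed μ) w) (D (x - w)) -
        L.precompL E (fderiv ℝ (φ.normed μ) w) (D (y - w))‖ ≤
        ‖fderiv ℝ (φ.normed μ) w‖ * (C * ‖x - y‖) := by
      intro w
      rw [← map_sub]
      refine (hb _ _).trans ?_
      have h2 := hC (x - w) (y - w)
      rw [sub_sub_sub_cancel_right] at h2
      exact mul_le_mul_of_nonneg_left h2 (norm_nonneg _)
    have h2 := norm_integral_le_of_norm_le (hI.mul_const (C * ‖x - y‖))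
      (Eventually.of_forall h1)
    rw [integral_mul_const] at h2
    refine h2.trans (le_of_eq ?_)
    change I * (C * ‖x - y‖) = C * I * ‖x - y‖
    ring
lemma convexOn_mol (φ : ContDiffBump (0 : E)) {D : E → ℝ} (hD : Continuous D) {S S' : Set E}
    (hconv : ConvexOn ℝ S D) (hS' : Convex ℝ S')
    (hsub : ∀ z ∈ S', ∀ w, ‖w‖ < φ.rOut → z - w ∈ S) : ConvexOn ℝ S' (mol μ φ D) := by
  refine ⟨hS', ?_⟩
  intro x hx y hy a b ha hb hab
  rw [mol_apply, mol_apply, mol_apply, smul_eq_mul, smul_eq_mul, ← integral_const_mul,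
    ← integral_const_mul, ← integral_add ((integrable_mol μ φ hD x).const_mul a)
      ((integrable_mol μ φ hD y).const_mul b)]
  apply integral_mono (integrable_mol μ φ hD _)
    (((integrable_mol μ φ hD x).const_mul a).add ((integrable_mol μ φ hD y).const_mul b))
  intro w
  simp only [Pi.add_apply]
  by_cases hw : ‖w‖ < φ.rOut
  · have h1 := hconv.2 (hsub x hx w hw) (hsub y hy w hw) ha hb hab
    have h2 : a • (x - w) + b • (y - w) = a • x + b • y - w := by
      rw [smul_sub, smul_sub]
      have : w = a • w + b • w := by rw [← add_smul, hab, one_smul]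
      nth_rewrite 3 [this]
      abel
    rw [h2, smul_eq_mul, smul_eq_mul] at h1
    have h3 := mul_le_mul_of_nonneg_left h1 (φ.nonneg_normed (μ := μ) w)
    linarith
  · have h1 : φ.normed μ w = 0 := by
      have : w ∉ Function.support (φ.normed μ) := by
        rw [φ.support_normed_eq, Metric.mem_ball, dist_zero_right]
        exact hw
      exact Function.notMem_support.1 this
    simp [h1]

end H67
end Pool.Agent.Lib.MP_2d002d_gt
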