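import Pool.Agent.Lib.MP_2d002d_gt.H67.Mol
import Pool.Agent.Lib.MP_2d002d_gt.H67.Dist

/-!
# module Sets of MP_2d002d_gt (helper67)
-/

set_option autoImplicit false

open MeasureTheory Set Filter Topology
open scoped ContDiff ENNReal Pointwise

namespace Pool.Agent.Lib.MP_2d002d_gt
namespace H67

variable {n d : ℕ}

lemma adm_lb {A : ℝ → ℝ} (hA : Adm A) : ∃ δ : ℝ, 0 < δ ∧ ∀ s, 0 ≤ s → A 0 + δ * s ≤ A s := by
  obtain ⟨δ, hδ, h⟩ := hA.lo
  refine ⟨δ, hδ, ?_⟩
  intro s hs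
  have hd : Differentiable ℝ A := hA.smooth.differentiable (by simp)
  have h1 := (convex_Icc (0 : ℝ) s).mul_sub_le_image_sub_of_le_deriv (f := A) (C := δ)
    hd.continuous.continuousOn hd.differentiableOn (by
      intro x hx
      rw [interior_Icc] at hx
      exact h x hx.1.le) 0 (left_mem_Icc.2 hs) s (right_mem_Icc.2 hs) hs
  linarith

/-- Gaussian bound of `exp (-pot)` -/
lemma exists_bound (A : Fin n → ℝ → ℝ) (hA : ∀ i, Adm (A i)) (M : ℝ) (hM : 0 < M) :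
    ∃ G : (Fin n → ℝ) → ℝ, Integrable G ∧ ∀ (o : Fin d → Fin n) (a : ℝ) (r : Fin d → ℝ)
      (x : Fin n → ℝ), 0 < a → a ≤ M → Real.exp (-pot o A a r x) ≤ G x := by
  choose δ hδ h using fun i => adm_lb (hA i)
  refine ⟨fun x => Real.exp (-∑ i, A i 0) * ∏ i, Real.exp (-(δ i / M ^ 2) * x i ^ 2), ?_, ?_⟩
  · apply Integrable.const_mul
    apply Integrable.fintype_prod (f := fun i (y : ℝ) => Real.exp (-(δ i / M ^ 2) * y ^ 2))
    intro i
    apply integrable_exp_neg_mul_sq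
    have := hδ i
    positivity
  · intro o a r x ha haM
    change _ ≤ Real.exp (-∑ i, A i 0) * ∏ i, Real.exp (-(δ i / M ^ 2) * x i ^ 2)
    rw [← Real.exp_sum, ← Real.exp_add, Real.exp_le_exp, ← Finset.sum_neg_distrib,
      ← Finset.sum_add_distrib]
    unfold pot
    have h1 : 0 ≤ (∑ k, Real.exp (r k) * (x (o k) / a) ^ 2) / 2 := by
      apply div_nonneg _ (by norm_num)
      apply Finset.sum_nonneg
      intro k _
      positivity
    have h2 : ∑ i, (A i 0 + δ i / M ^ 2 * x i ^ 2) ≤ ∑ i, A i ((x i / a) ^ 2) := by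
      apply Finset.sum_le_sum
      intro i _
      refine le_trans ?_ (h i _ (by positivity))
      have h3 : x i ^ 2 / M ^ 2 ≤ (x i / a) ^ 2 := by
        rw [div_pow]
        apply div_le_div_of_nonneg_left (sq_nonneg _) (by positivity)
        exact pow_le_pow_left₀ ha.le haM 2
      have h4 := mul_le_mul_of_nonneg_left h3 (hδ i).le
      have h5 : δ i / M ^ 2 * x i ^ 2 = δ i * (x i ^ 2 / M ^ 2) := by ring
      linarith
    have h6 : ∑ i, (-A i 0 + -(δ i / M ^ 2) * x i ^ 2) =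
        - ∑ i, (A i 0 + δ i / M ^ 2 * x i ^ 2) := by
      rw [← Finset.sum_neg_distrib]
      apply Finset.sum_congr rfl
      intro i _
      ring
    rw [h6]
    linarith

/-- continuity of the potential in `x` -/
lemma continuous_pot_x (o : Fin d → Fin n) (A : Fin n → ℝ → ℝ) (hA : ∀ i, Adm (A i)) (a : ℝ)
    (r : Fin d → ℝ) : Continuous (fun x => pot o A a r x) := by
  unfold pot
  apply Continuous.add
  · apply continuous_finsetSum
    intro i _
    exact (hA i).smooth.continuous.comp (by fun_prop)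
  · fun_prop

/-- continuity of the potential in the parameters -/
lemma continuousOn_pot_s (o : Fin d → Fin n) (A : Fin n → ℝ → ℝ) (hA : ∀ i, Adm (A i))
    (a : ℝ → ℝ) (r : ℝ → Fin d → ℝ) (S : Set ℝ) (ha : Continuous a) (hr : Continuous r)
    (ha0 : ∀ s ∈ S, 0 < a s) (x : Fin n → ℝ) :
    ContinuousOn (fun s => pot o A (a s) (r s) x) S := by
  unfold pot
  have h1 : ∀ i, ContinuousOn (fun s => (x i / a s) ^ 2) S := by
    intro i
    apply ContinuousOn.pow
    apply ContinuousOn.div continuousOn_const ha.continuousOn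
    intro s hs
    exact (ha0 s hs).ne'
  have h2 : ∀ k, Continuous (fun s => r s k) := fun k => (continuous_apply k).comp hr
  apply ContinuousOn.add
  · apply continuousOn_finsetSum
    intro i _
    exact (hA i).smooth.continuous.comp_continuousOn (h1 i)
  · apply ContinuousOn.div_const
    apply continuousOn_finsetSum
    intro k _
    exact ((Real.continuous_exp.comp (h2 k)).continuousOn).mul (h1 (o k))

/-- the potential at time `s` -/
noncomputable def WW (o : Fin d → Fin n) (A : Fin n → ℝ → ℝ) (a0 a1 : ℝ) (r0 r1 : Fin d → ℝ)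
    (s : ℝ) (x : Fin n → ℝ) : ℝ :=
  pot o A (a0 + (a1 - a0) * s) (fun k => r0 k + (r1 k - r0 k) * s) x

section main

variable (o : Fin d → Fin n) (A : Fin n → ℝ → ℝ) (a0 a1 : ℝ) (r0 r1 : Fin d → ℝ)
  (K0 K1 : Set (Fin n → ℝ))

/-- the smoothed integral -/
noncomputable def FF (N s : ℝ) : ℝ :=
  ∫ x, Real.exp (-(WW o A a0 a1 r0 r1 s x + N * DD K0 K1 (x, s)))

variable {A a0 a1 K0 K1}

lemma aa_mem (h0 : 0 < a0) (h1 : 0 < a1) {s : ℝ} (hs : s ∈ Icc (0 : ℝ) 1) :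
    0 < a0 + (a1 - a0) * s ∧ a0 + (a1 - a0) * s ≤ a0 + a1 := by
  obtain ⟨hs0, hs1⟩ := hs
  have e : a0 + (a1 - a0) * s = (1 - s) * a0 + s * a1 := by ring
  rw [e]
  constructor
  · rcases eq_or_lt_of_le hs0 with h | h
    · rw [← h]
      simpa using h0
    · have h2 : 0 < s * a1 := mul_pos h h1
      have h3 : 0 ≤ (1 - s) * a0 := mul_nonneg (by linarith) h0.le
      linarith
  · nlinarith


lemma continuous_DD_x (s : ℝ) : Continuous (fun x : Fin n → ℝ => DD K0 K1 (x, s)) := by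
  have h := Metric.continuous_infDist_pt (Kc K0 K1 (cl s))
  exact h

lemma integrable_aux (hA : ∀ i, Adm (A i)) (h0 : 0 < a0) (h1 : 0 < a1) {s : ℝ}
    (hs : s ∈ Icc (0 : ℝ) 1) (g : (Fin n → ℝ) → ℝ) (hg : Continuous g) (hg0 : ∀ x, 0 ≤ g x) :
    Integrable (fun x => Real.exp (-(WW o A a0 a1 r0 r1 s x + g x))) := by
  obtain ⟨G, hG, hb⟩ := exists_bound (d := d) A hA (a0 + a1) (by linarith)
  apply hG.mono'
  · apply Continuous.aestronglyMeasurable
    exact Real.continuous_exp.comp ((continuous_pot_x o A hA _ _).add hg).neg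
  · refine Eventually.of_forall fun x => ?_
    rw [Real.norm_of_nonneg (Real.exp_pos _).le]
    refine le_trans ?_ (hb o (a0 + (a1 - a0) * s) (fun k => r0 k + (r1 k - r0 k) * s) x
      (aa_mem h0 h1 hs).1 (aa_mem h0 h1 hs).2)
    rw [Real.exp_le_exp]
    have := hg0 x
    unfold WW
    linarith

lemma integral_aux_pos (hA : ∀ i, Adm (A i)) (h0 : 0 < a0) (h1 : 0 < a1) {s : ℝ}
    (hs : s ∈ Icc (0 : ℝ) 1) (g : (Fin n → ℝ) → ℝ) (hg : Continuous g) (hg0 : ∀ x, 0 ≤ g x) :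
    0 < ∫ x, Real.exp (-(WW o A a0 a1 r0 r1 s x + g x)) := by
  apply MeasureTheory.integral_exp_pos
  exact integrable_aux o r0 r1 hA h0 h1 hs g hg hg0

instance isAddHaar_prod : (volume : Measure ((Fin n → ℝ) × ℝ)).IsAddHaarMeasure := by
  rw [Measure.volume_eq_prod]
  infer_instance

lemma norm_fderiv_le_of {E F : Type*} [NormedAddCommGroup E] [NormedSpace ℝ E]
    [NormedAddCommGroup F] [NormedSpace ℝ F] (f : E → F) (c : ℝ) (hc : 0 ≤ c)
    (h : ∀ x y, ‖f x - f y‖ ≤ c * ‖x - y‖) (z : E) : ‖fderiv ℝ f z‖ ≤ c := by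
  have h1 : LipschitzWith (Real.toNNReal c) f := by
    apply LipschitzWith.of_dist_le_mul
    intro x y
    rw [Real.coe_toNNReal c hc, dist_eq_norm, dist_eq_norm]
    exact h x y
  have h2 := norm_fderiv_le_of_lipschitz ℝ h1 (x₀ := z)
  rwa [Real.coe_toNNReal c hc] at h2

lemma norm_smul_sub' {F : Type*} [NormedAddCommGroup F] [NormedSpace ℝ F] (c : ℝ) (hc : 0 ≤ c)
    (X Y : F) : ‖c • X - c • Y‖ = c * ‖X - Y‖ := by
  rw [← smul_sub, norm_smul, Real.norm_of_nonneg hc]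

/-- the reflection `(x, s) ↦ (-x, s)` -/
noncomputable def RR : ((Fin n → ℝ) × ℝ) →L[ℝ] ((Fin n → ℝ) × ℝ) :=
  (-ContinuousLinearMap.fst ℝ (Fin n → ℝ) ℝ).prod (ContinuousLinearMap.snd ℝ (Fin n → ℝ) ℝ)

lemma RR_apply (x : Fin n → ℝ) (s : ℝ) : RR (x, s) = (-x, s) := rfl

lemma norm_RR_sub (z z' : (Fin n → ℝ) × ℝ) : ‖RR z - RR z'‖ = ‖z - z'‖ := by
  rw [← map_sub]
  obtain ⟨x, s⟩ := z - z'
  rw [RR_apply, Prod.norm_mk, Prod.norm_mk, norm_neg]

/-- the smooth approximation of `N * DD`, even in `x` -/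
noncomputable def psi (K0 K1 : Set (Fin n → ℝ)) (N : ℝ)
    (φ : ContDiffBump (0 : (Fin n → ℝ) × ℝ)) (z : (Fin n → ℝ) × ℝ) : ℝ :=
  N / 2 * (mol volume φ (DD K0 K1) z + mol volume φ (DD K0 K1) (RR z))

section psi

variable {C : ℝ} (hC0 : 0 ≤ C)
  (hC : ∀ z z' : (Fin n → ℝ) × ℝ, |DD K0 K1 z - DD K0 K1 z'| ≤ C * ‖z - z'‖)
  {N : ℝ} (hN : 0 ≤ N) (φ : ContDiffBump (0 : (Fin n → ℝ) × ℝ))

include hC0 hC

lemma continuous_DD : Continuous (DD K0 K1) := by
  have h : LipschitzWith ⟨C, hC0⟩ (DD K0 K1) := by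
    apply LipschitzWith.of_dist_le_mul
    intro x y
    rw [Real.dist_eq, dist_eq_norm]
    exact hC x y
  exact h.continuous

lemma contDiff_psi : ContDiff ℝ ∞ (psi K0 K1 N φ) := by
  have h := contDiff_mol volume φ (continuous_DD hC0 hC)
  unfold psi
  exact contDiff_const.mul (h.add (h.comp RR.contDiff))

omit hC0 hC in
lemma psi_even (x : Fin n → ℝ) (s : ℝ) : psi K0 K1 N φ (-x, s) = psi K0 K1 N φ (x, s) := by
  unfold psi
  rw [RR_apply, RR_apply, neg_neg, add_comm]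

include hN

lemma psi_convex (hconv : ConvexOn ℝ (univ ×ˢ Icc (0 : ℝ) 1) (DD K0 K1)) {δ : ℝ}
    (hδ : φ.rOut ≤ δ) : ConvexOn ℝ (univ ×ˢ Ioo δ (1 - δ)) (psi K0 K1 N φ) := by
  have h1 : ConvexOn ℝ (univ ×ˢ Ioo δ (1 - δ)) (mol volume φ (DD K0 K1)) := by
    apply convexOn_mol volume φ (continuous_DD hC0 hC) hconv (convex_univ.prod (convex_Ioo _ _))
    rintro ⟨x, s⟩ hz ⟨y, r⟩ hw
    have hs : s ∈ Ioo δ (1 - δ) := hz.2
    have hr : |r| < δ := by
      have h := norm_snd_le ((y, r) : (Fin n → ℝ) × ℝ)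
      simp only [Real.norm_eq_abs] at h
      linarith
    rw [abs_lt] at hr
    refine ⟨mem_univ _, ?_⟩
    change s - r ∈ Icc (0 : ℝ) 1
    constructor
    · linarith [hs.1]
    · linarith [hs.2]
  have h2 : ConvexOn ℝ (univ ×ˢ Ioo δ (1 - δ)) (fun z => mol volume φ (DD K0 K1) (RR z)) := by
    have h := h1.comp_linearMap (RR (n := n)).toLinearMap
    have e : (RR (n := n)).toLinearMap ⁻¹' (univ ×ˢ Ioo δ (1 - δ)) = univ ×ˢ Ioo δ (1 - δ) := by
      ext ⟨x, s⟩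
      simp [RR_apply]
    rw [e] at h
    exact h
  have h3 := (h1.add h2).smul (c := N / 2) (by positivity)
  exact h3

lemma psi_lip (z z' : (Fin n → ℝ) × ℝ) :
    |psi K0 K1 N φ z - psi K0 K1 N φ z'| ≤ N * C * ‖z - z'‖ := by
  have h1 := mol_lip volume φ (continuous_DD hC0 hC) hC z z'
  have h2 := mol_lip volume φ (continuous_DD hC0 hC) hC (RR z) (RR z')
  rw [norm_RR_sub] at h2
  unfold psi
  rw [← mul_sub, abs_mul, abs_of_nonneg (by positivity : (0 : ℝ) ≤ N / 2)]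
  have h3 : |mol volume φ (DD K0 K1) z + mol volume φ (DD K0 K1) (RR z) -
      (mol volume φ (DD K0 K1) z' + mol volume φ (DD K0 K1) (RR z'))| ≤ 2 * (C * ‖z - z'‖) := by
    have e : mol volume φ (DD K0 K1) z + mol volume φ (DD K0 K1) (RR z) -
      (mol volume φ (DD K0 K1) z' + mol volume φ (DD K0 K1) (RR z')) =
      (mol volume φ (DD K0 K1) z - mol volume φ (DD K0 K1) z') +
      (mol volume φ (DD K0 K1) (RR z) - mol volume φ (DD K0 K1) (RR z')) := by ring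
    rw [e]
    refine (abs_add_le _ _).trans ?_
    linarith
  have h4 := mul_le_mul_of_nonneg_left h3 (by positivity : (0 : ℝ) ≤ N / 2)
  linarith

lemma psi_fderiv : ∃ C' : ℝ, ∀ z, ‖fderiv ℝ (psi K0 K1 N φ) z‖ ≤ C' := by
  refine ⟨N * C, fun z => ?_⟩
  have h : LipschitzWith ⟨N * C, by positivity⟩ (psi K0 K1 N φ) := by
    apply LipschitzWith.of_dist_le_mul
    intro x y
    rw [Real.dist_eq, dist_eq_norm]
    exact psi_lip hC0 hC hN φ x y
  exact norm_fderiv_le_of_lipschitz ℝ h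

lemma psi_fderiv2 : ∃ C' : ℝ, ∀ z, ‖fderiv ℝ (fderiv ℝ (psi K0 K1 N φ)) z‖ ≤ C' := by
  obtain ⟨L, hL⟩ := lip_fderiv_mol volume φ (continuous_DD hC0 hC) hC0 hC
  have hd : Differentiable ℝ (mol volume φ (DD K0 K1)) :=
    (contDiff_mol volume φ (continuous_DD hC0 hC)).differentiable (by simp)
  have hfd : ∀ z, fderiv ℝ (psi K0 K1 N φ) z = (N / 2) • (fderiv ℝ (mol volume φ (DD K0 K1)) z +
      (fderiv ℝ (mol volume φ (DD K0 K1)) (RR z)).comp RR) := by
    intro z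
    have h1 := (hd z).hasFDerivAt
    have h2 := (hd (RR z)).hasFDerivAt.comp z (RR (n := n)).hasFDerivAt
    exact ((h1.add h2).const_mul (N / 2)).fderiv
  set R0 := ‖(RR : ((Fin n → ℝ) × ℝ) →L[ℝ] ((Fin n → ℝ) × ℝ))‖ with hR0
  refine ⟨N / 2 * (L * (1 + R0)), fun z => ?_⟩
  apply norm_fderiv_le_of _ _ (by positivity)
  · intro x y
    rw [hfd, hfd]
    refine (norm_smul_sub' (N / 2) (by positivity) _ _).le.trans ?_
    have h1 : ‖fderiv ℝ (mol volume φ (DD K0 K1)) x - fderiv ℝ (mol volume φ (DD K0 K1)) y‖ ≤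
        L * ‖x - y‖ := by
      have := hL.dist_le_mul x y
      rwa [dist_eq_norm, dist_eq_norm] at this
    have h2 : ‖fderiv ℝ (mol volume φ (DD K0 K1)) (RR x) -
        fderiv ℝ (mol volume φ (DD K0 K1)) (RR y)‖ ≤ L * ‖x - y‖ := by
      have := hL.dist_le_mul (RR x) (RR y)
      rwa [dist_eq_norm, dist_eq_norm, norm_RR_sub] at this
    have h3 : ‖(fderiv ℝ (mol volume φ (DD K0 K1)) (RR x)).comp RR -
        (fderiv ℝ (mol volume φ (DD K0 K1)) (RR y)).comp RR‖ ≤ L * ‖x - y‖ * R0 := by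
      rw [← ContinuousLinearMap.sub_comp]
      refine (ContinuousLinearMap.opNorm_comp_le _ _).trans ?_
      exact mul_le_mul_of_nonneg_right h2 (norm_nonneg _)
    have h4 : ‖fderiv ℝ (mol volume φ (DD K0 K1)) x +
        (fderiv ℝ (mol volume φ (DD K0 K1)) (RR x)).comp RR -
        (fderiv ℝ (mol volume φ (DD K0 K1)) y +
        (fderiv ℝ (mol volume φ (DD K0 K1)) (RR y)).comp RR)‖ ≤
        L * (1 + R0) * ‖x - y‖ := by
      have e : fderiv ℝ (mol volume φ (DD K0 K1)) x +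
        (fderiv ℝ (mol volume φ (DD K0 K1)) (RR x)).comp RR -
        (fderiv ℝ (mol volume φ (DD K0 K1)) y +
        (fderiv ℝ (mol volume φ (DD K0 K1)) (RR y)).comp RR) =
        (fderiv ℝ (mol volume φ (DD K0 K1)) x - fderiv ℝ (mol volume φ (DD K0 K1)) y) +
        ((fderiv ℝ (mol volume φ (DD K0 K1)) (RR x)).comp RR -
        (fderiv ℝ (mol volume φ (DD K0 K1)) (RR y)).comp RR) := by abel
      rw [e]
      refine (norm_add_le _ _).trans ?_
      linarith
    have h5 := mul_le_mul_of_nonneg_left h4 (by positivity : (0 : ℝ) ≤ N / 2)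
    linarith

lemma psi_close (h0 : ∀ x ∈ K0, -x ∈ K0) (h1 : ∀ x ∈ K1, -x ∈ K1) (z : (Fin n → ℝ) × ℝ) :
    |psi K0 K1 N φ z - N * DD K0 K1 z| ≤ N * (C * φ.rOut) := by
  have h2 := abs_mol_sub_le volume φ (continuous_DD hC0 hC) hC0 hC z
  have h3 := abs_mol_sub_le volume φ (continuous_DD hC0 hC) hC0 hC (RR z)
  have h4 : DD K0 K1 (RR z) = DD K0 K1 z := DD_neg h0 h1 z.1 z.2
  rw [h4] at h3
  unfold psi
  have e : N / 2 * (mol volume φ (DD K0 K1) z + mol volume φ (DD K0 K1) (RR z)) -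
      N * DD K0 K1 z = N / 2 * ((mol volume φ (DD K0 K1) z - DD K0 K1 z) +
      (mol volume φ (DD K0 K1) (RR z) - DD K0 K1 z)) := by ring
  rw [e, abs_mul, abs_of_nonneg (by positivity : (0 : ℝ) ≤ N / 2)]
  have h5 := (abs_add_le (mol volume φ (DD K0 K1) z - DD K0 K1 z)
      (mol volume φ (DD K0 K1) (RR z) - DD K0 K1 z)).trans (add_le_add h2 h3)
  have h6 := mul_le_mul_of_nonneg_left h5 (by positivity : (0 : ℝ) ≤ N / 2)
  linarith

omit hC0 hC in
lemma psi_nonneg (z : (Fin n → ℝ) × ℝ) : 0 ≤ psi K0 K1 N φ z := by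
  have h : ∀ z, 0 ≤ mol volume φ (DD K0 K1) z := by
    intro z
    rw [mol_apply]
    apply integral_nonneg
    intro w
    exact mul_nonneg (φ.nonneg_normed w) (DD_nonneg _)
  unfold psi
  have h1 := h z
  have h2 := h (RR z)
  positivity

end psi

section final

lemma log_close {f g : (Fin n → ℝ) → ℝ} (hf : Integrable (fun x => Real.exp (f x)))
    (hg : Integrable (fun x => Real.exp (g x))) {e : ℝ} (h : ∀ x, f x ≤ g x + e) :
    Real.log (∫ x, Real.exp (f x)) ≤ Real.log (∫ x, Real.exp (g x)) + e := by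
  have h1 : ∫ x, Real.exp (f x) ≤ Real.exp e * ∫ x, Real.exp (g x) := by
    rw [← integral_const_mul]
    apply integral_mono hf (hg.const_mul _)
    intro x
    simp only
    rw [← Real.exp_add, Real.exp_le_exp]
    have := h x
    linarith
  have h2 : 0 < ∫ x, Real.exp (f x) := integral_exp_pos hf
  have h3 : 0 < ∫ x, Real.exp (g x) := integral_exp_pos hg
  have h4 := Real.log_le_log h2 h1
  rw [Real.log_mul (Real.exp_pos e).ne' h3.ne', Real.log_exp] at h4
  linarith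

lemma FF_lc (hLC : LCsmooth) (hA : ∀ i, Adm (A i)) (h0 : 0 < a0) (h1 : 0 < a1)
    (hc0 : Convex ℝ K0) (hc1 : Convex ℝ K1) (hne0 : K0.Nonempty) (hne1 : K1.Nonempty)
    (hs0 : ∀ x ∈ K0, -x ∈ K0) (hs1 : ∀ x ∈ K1, -x ∈ K1) {C : ℝ} (hC0 : 0 ≤ C)
    (hC : ∀ z z' : (Fin n → ℝ) × ℝ, |DD K0 K1 z - DD K0 K1 z'| ≤ C * ‖z - z'‖)
    {N : ℝ} (hN : 0 ≤ N) {s1 s2 a b : ℝ} (hs1' : s1 ∈ Ioo (0 : ℝ) 1) (hs2' : s2 ∈ Ioo (0 : ℝ) 1)
    (ha : 0 ≤ a) (hb : 0 ≤ b) (hab : a + b = 1) :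
    a * Real.log (FF o A a0 a1 r0 r1 K0 K1 N s1) + b * Real.log (FF o A a0 a1 r0 r1 K0 K1 N s2) ≤
      Real.log (FF o A a0 a1 r0 r1 K0 K1 N (a * s1 + b * s2)) := by
  apply le_of_forall_pos_le_add
  intro ε hε
  obtain ⟨hs10, hs11⟩ := hs1'
  obtain ⟨hs20, hs21⟩ := hs2'
  have hNC : 0 ≤ N * C := mul_nonneg hN hC0
  set δ := min (min (min s1 s2) (min (1 - s1) (1 - s2)) / 2) (ε / (2 * (N * C + 1))) with hδ
  have hm : 0 < min (min s1 s2) (min (1 - s1) (1 - s2)) :=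
    lt_min (lt_min hs10 hs20) (lt_min (by linarith) (by linarith))
  have hδ0 : 0 < δ := lt_min (by positivity) (by positivity)
  have hδ1 : δ < min (min s1 s2) (min (1 - s1) (1 - s2)) :=
    lt_of_le_of_lt (min_le_left _ _) (by linarith)
  have hδs1 : δ < s1 := hδ1.trans_le ((min_le_left _ _).trans (min_le_left _ _))
  have hδs2 : δ < s2 := hδ1.trans_le ((min_le_left _ _).trans (min_le_right _ _))
  have hδs3 : δ < 1 - s1 := hδ1.trans_le ((min_le_right _ _).trans (min_le_left _ _))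
  have hδs4 : δ < 1 - s2 := hδ1.trans_le ((min_le_right _ _).trans (min_le_right _ _))
  have hδε : 2 * (N * (C * δ)) ≤ ε := by
    have h2 : δ ≤ ε / (2 * (N * C + 1)) := min_le_right _ _
    rw [le_div_iff₀ (by positivity)] at h2
    nlinarith
  let φ : ContDiffBump (0 : (Fin n → ℝ) × ℝ) := ⟨δ / 2, δ, by positivity, by linarith⟩
  have hφ : φ.rOut = δ := rfl
  have hdd := DD_convex hc0 hc1 hne0 hne1
  have key := hLC n d o A r0 (fun k => r1 k - r0 k) a0 (a1 - a0) δ (1 - δ) (psi K0 K1 N φ) hA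
    (by
      intro t ht
      exact (aa_mem h0 h1 ⟨by linarith [ht.1], by linarith [ht.2]⟩).1)
    (contDiff_psi hC0 hC φ) (fun x t => psi_even φ x t)
    (psi_convex hC0 hC hN φ hdd (le_of_eq hφ)) (psi_fderiv hC0 hC hN φ) (psi_fderiv2 hC0 hC hN φ)
  have hcl : ∀ t ∈ Icc (0 : ℝ) 1,
      Real.log (∫ x, Real.exp (-(WW o A a0 a1 r0 r1 t x + psi K0 K1 N φ (x, t)))) ≤
        Real.log (FF o A a0 a1 r0 r1 K0 K1 N t) + N * (C * δ) ∧
      Real.log (FF o A a0 a1 r0 r1 K0 K1 N t) ≤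
        Real.log (∫ x, Real.exp (-(WW o A a0 a1 r0 r1 t x + psi K0 K1 N φ (x, t)))) +
          N * (C * δ) := by
    intro t ht
    have hi1 : Integrable (fun x => Real.exp (-(WW o A a0 a1 r0 r1 t x + psi K0 K1 N φ (x, t)))) :=
      integrable_aux o r0 r1 hA h0 h1 ht _
        ((contDiff_psi hC0 hC φ).continuous.comp (by fun_prop)) (fun x => psi_nonneg hN φ _)
    have hi2 : Integrable (fun x => Real.exp (-(WW o A a0 a1 r0 r1 t x + N * DD K0 K1 (x, t)))) :=
      integrable_aux o r0 r1 hA h0 h1 ht _ ((continuous_DD_x t).const_smul N)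
        (fun x => mul_nonneg hN (DD_nonneg _))
    have hcl := fun x : Fin n → ℝ => psi_close hC0 hC hN φ hs0 hs1 (x, t)
    constructor
    · apply log_close hi1 hi2
      intro x
      have := (abs_le.1 (hcl x)).1
      rw [hφ] at this
      linarith
    · apply log_close hi2 hi1
      intro x
      have := (abs_le.1 (hcl x)).2
      rw [hφ] at this
      linarith
  have hm1 : s1 ∈ Ioo δ (1 - δ) := ⟨hδs1, by linarith⟩
  have hm2 : s2 ∈ Ioo δ (1 - δ) := ⟨hδs2, by linarith⟩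
  have hm3 : a * s1 + b * s2 ∈ Ioo δ (1 - δ) := by
    have := (convex_Ioo δ (1 - δ)) hm1 hm2 ha hb hab
    simpa using this
  have k1 := key.2 hm1 hm2 ha hb hab
  simp only [smul_eq_mul] at k1
  have sub : ∀ t ∈ Ioo δ (1 - δ), t ∈ Icc (0 : ℝ) 1 := fun t ht =>
    ⟨by linarith [ht.1], by linarith [ht.2]⟩
  have c1 := (hcl s1 (sub _ hm1)).2
  have c2 := (hcl s2 (sub _ hm2)).2
  have c3 := (hcl _ (sub _ hm3)).1
  have e1 := mul_le_mul_of_nonneg_left c1 ha
  have e2 := mul_le_mul_of_nonneg_left c2 hb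
  unfold WW at e1 e2 c3
  have e3 : a * (N * (C * δ)) + b * (N * (C * δ)) = N * (C * δ) := by
    rw [← add_mul, hab, one_mul]
  linarith

lemma FF_cont (hA : ∀ i, Adm (A i)) (h0 : 0 < a0) (h1 : 0 < a1) {C : ℝ} (hC0 : 0 ≤ C)
    (hC : ∀ z z' : (Fin n → ℝ) × ℝ, |DD K0 K1 z - DD K0 K1 z'| ≤ C * ‖z - z'‖)
    {N : ℝ} (hN : 0 ≤ N) : ContinuousOn (FF o A a0 a1 r0 r1 K0 K1 N) (Icc 0 1) := by
  obtain ⟨G, hG, hb⟩ := exists_bound (d := d) A hA (a0 + a1) (by linarith)
  unfold FF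
  apply MeasureTheory.continuousOn_of_dominated (bound := G)
  · intro s hs
    exact (integrable_aux o r0 r1 hA h0 h1 hs _ ((continuous_DD_x s).const_smul N)
        (fun x => mul_nonneg hN (DD_nonneg _))).aestronglyMeasurable
  · intro s hs
    refine Eventually.of_forall fun x => ?_
    rw [Real.norm_of_nonneg (Real.exp_pos _).le]
    refine le_trans ?_ (hb o (a0 + (a1 - a0) * s) (fun k => r0 k + (r1 k - r0 k) * s) x
      (aa_mem h0 h1 hs).1 (aa_mem h0 h1 hs).2)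
    rw [Real.exp_le_exp]
    have := mul_nonneg hN (DD_nonneg (K0 := K0) (K1 := K1) (x, s))
    unfold WW
    linarith
  · exact hG
  · refine Eventually.of_forall fun x => ?_
    apply Real.continuous_exp.comp_continuousOn
    apply ContinuousOn.neg
    apply ContinuousOn.add
    · unfold WW
      exact continuousOn_pot_s o A hA (fun s => a0 + (a1 - a0) * s)
        (fun s k => r0 k + (r1 k - r0 k) * s) (Icc 0 1) (by fun_prop) (by fun_prop)
        (fun s hs => (aa_mem h0 h1 hs).1) x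
    · apply Continuous.continuousOn
      apply Continuous.mul continuous_const
      exact (continuous_DD hC0 hC).comp (by fun_prop)

lemma FF_pos (hA : ∀ i, Adm (A i)) (h0 : 0 < a0) (h1 : 0 < a1) {N : ℝ} (hN : 0 ≤ N) {s : ℝ}
    (hs : s ∈ Icc (0 : ℝ) 1) : 0 < FF o A a0 a1 r0 r1 K0 K1 N s :=
  integral_aux_pos o r0 r1 hA h0 h1 hs _ ((continuous_DD_x s).const_smul N)
    (fun x => mul_nonneg hN (DD_nonneg _))

lemma FF_ends (hLC : LCsmooth) (hA : ∀ i, Adm (A i)) (h0 : 0 < a0) (h1 : 0 < a1)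
    (hc0 : Convex ℝ K0) (hc1 : Convex ℝ K1) (hne0 : K0.Nonempty) (hne1 : K1.Nonempty)
    (hs0 : ∀ x ∈ K0, -x ∈ K0) (hs1 : ∀ x ∈ K1, -x ∈ K1) {C : ℝ} (hC0 : 0 ≤ C)
    (hC : ∀ z z' : (Fin n → ℝ) × ℝ, |DD K0 K1 z - DD K0 K1 z'| ≤ C * ‖z - z'‖)
    {N : ℝ} (hN : 0 ≤ N) {t : ℝ} (ht0 : 0 < t) (ht1 : t < 1) :
    FF o A a0 a1 r0 r1 K0 K1 N 0 ^ (1 - t) * FF o A a0 a1 r0 r1 K0 K1 N 1 ^ t ≤
      FF o A a0 a1 r0 r1 K0 K1 N t := by
  set F := FF o A a0 a1 r0 r1 K0 K1 N with hF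
  have hcont : ContinuousOn F (Icc 0 1) := FF_cont o r0 r1 hA h0 h1 hC0 hC hN
  have hpos : ∀ s ∈ Icc (0 : ℝ) 1, 0 < F s := fun s hs => FF_pos o r0 r1 hA h0 h1 hN hs
  have hlog : ContinuousOn (fun s => Real.log (F s)) (Icc 0 1) :=
    hcont.log (fun s hs => (hpos s hs).ne')
  have h01 : (0 : ℝ) ∈ Icc (0 : ℝ) 1 := ⟨le_refl _, zero_le_one⟩
  have h11 : (1 : ℝ) ∈ Icc (0 : ℝ) 1 := ⟨zero_le_one, le_refl _⟩
  have htt : t ∈ Icc (0 : ℝ) 1 := ⟨ht0.le, ht1.le⟩
  have hev : ∀ᶠ e in 𝓝[>] (0 : ℝ), e ∈ Ioo (0 : ℝ) 1 := Ioo_mem_nhdsGT one_pos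
  have htend : ∀ (g : ℝ → ℝ) (p : ℝ), p ∈ Icc (0 : ℝ) 1 → Continuous g → g 0 = p →
      (∀ e ∈ Ioo (0 : ℝ) 1, g e ∈ Icc (0 : ℝ) 1) →
      Tendsto (fun e => Real.log (F (g e))) (𝓝[>] 0) (𝓝 (Real.log (F p))) := by
    intro g p hp hg hg0 hgm
    apply (hlog p hp).tendsto.comp
    rw [tendsto_nhdsWithin_iff]
    constructor
    · have := hg.tendsto 0
      rw [hg0] at this
      exact this.mono_left nhdsWithin_le_nhds
    · filter_upwards [hev] with e he
      exact hgm e he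
  have t1 := htend (fun e => e) 0 h01 continuous_id rfl (fun e he => ⟨he.1.le, he.2.le⟩)
  have t2 := htend (fun e => 1 - e) 1 h11 (by fun_prop) (by norm_num)
    (fun e he => ⟨by linarith [he.2], by linarith [he.1]⟩)
  have t3 := htend (fun e => (1 - t) * e + t * (1 - e)) t htt (by fun_prop) (by ring) (by
    intro e he
    have := (convex_Icc (0 : ℝ) 1) (x := e) ⟨he.1.le, he.2.le⟩ (y := 1 - e)
      ⟨by linarith [he.2], by linarith [he.1]⟩ (a := 1 - t) (b := t) (by linarith) ht0.le (by ring)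
    simpa using this)
  have hle := le_of_tendsto_of_tendsto ((t1.const_mul (1 - t)).add (t2.const_mul t)) t3 (by
    filter_upwards [hev] with e he
    exact FF_lc o r0 r1 hLC hA h0 h1 hc0 hc1 hne0 hne1 hs0 hs1 hC0 hC hN he
      ⟨by linarith [he.2], by linarith [he.1]⟩ (by linarith) ht0.le (by ring))
  have p0 := hpos 0 h01
  have p1 := hpos 1 h11
  have pt := hpos t htt
  rw [← Real.log_le_log_iff (by positivity) pt, Real.log_mul (by positivity) (by positivity),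
    Real.log_rpow p0, Real.log_rpow p1]
  exact hle

lemma setIntegral_le_FF (hA : ∀ i, Adm (A i)) (h0 : 0 < a0) (h1 : 0 < a1) {N : ℝ} (hN : 0 ≤ N)
    {s : ℝ} (hs : s ∈ Icc (0 : ℝ) 1) {K : Set (Fin n → ℝ)} (hK : Convex ℝ K)
    (hz : ∀ x ∈ K, DD K0 K1 (x, s) = 0) :
    ∫ x in K, Real.exp (-WW o A a0 a1 r0 r1 s x) ≤ FF o A a0 a1 r0 r1 K0 K1 N s := by
  have hi : Integrable (fun x => Real.exp (-(WW o A a0 a1 r0 r1 s x + N * DD K0 K1 (x, s)))) :=
    integrable_aux o r0 r1 hA h0 h1 hs _ ((continuous_DD_x s).const_smul N)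
      (fun x => mul_nonneg hN (DD_nonneg _))
  have e : ∫ x in K, Real.exp (-WW o A a0 a1 r0 r1 s x) =
      ∫ x in K, Real.exp (-(WW o A a0 a1 r0 r1 s x + N * DD K0 K1 (x, s))) := by
    apply integral_congr_ae
    filter_upwards [ae_restrict_mem₀ (hK.nullMeasurableSet volume)] with x hx
    rw [hz x hx, mul_zero, add_zero]
  rw [e]
  exact setIntegral_le_integral hi (Eventually.of_forall fun x => (Real.exp_pos _).le)

lemma FF_tendsto (hA : ∀ i, Adm (A i)) (h0 : 0 < a0) (h1 : 0 < a1)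
    (hc0 : Convex ℝ K0) (hc1 : Convex ℝ K1) (hne0 : K0.Nonempty) (hne1 : K1.Nonempty)
    {t : ℝ} (ht : t ∈ Icc (0 : ℝ) 1) :
    Tendsto (fun N : ℕ => FF o A a0 a1 r0 r1 K0 K1 N t) atTop
      (𝓝 (∫ x in Kc K0 K1 t, Real.exp (-WW o A a0 a1 r0 r1 t x))) := by
  have hcv : Convex ℝ (Kc K0 K1 t) := convex_Kc hc0 hc1 t
  have e1 : ∫ x in Kc K0 K1 t, Real.exp (-WW o A a0 a1 r0 r1 t x) =
      ∫ x in closure (Kc K0 K1 t), Real.exp (-WW o A a0 a1 r0 r1 t x) := by
    apply setIntegral_congr_set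
    have h2 : volume (closure (Kc K0 K1 t) \ Kc K0 K1 t) = 0 := by
      apply measure_mono_null _ (hcv.addHaar_frontier volume)
      intro x hx
      exact ⟨hx.1, fun h => hx.2 (interior_subset h)⟩
    have h3 : Kc K0 K1 t ≤ᵐ[volume] closure (Kc K0 K1 t) :=
      (subset_closure : Kc K0 K1 t ⊆ _).eventuallyLE
    have h4 : closure (Kc K0 K1 t) ≤ᵐ[volume] Kc K0 K1 t := by
      rw [ae_le_set]
      exact h2
    exact h3.antisymm h4
  rw [e1, ← integral_indicator isClosed_closure.measurableSet]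
  obtain ⟨G, hG, hb⟩ := exists_bound (d := d) A hA (a0 + a1) (by linarith)
  have hbd : ∀ (N : ℕ) (x : Fin n → ℝ),
      ‖Real.exp (-(WW o A a0 a1 r0 r1 t x + N * DD K0 K1 (x, t)))‖ ≤ G x := by
    intro N x
    rw [Real.norm_of_nonneg (Real.exp_pos _).le]
    refine le_trans ?_ (hb o (a0 + (a1 - a0) * t) (fun k => r0 k + (r1 k - r0 k) * t) x
      (aa_mem h0 h1 ht).1 (aa_mem h0 h1 ht).2)
    rw [Real.exp_le_exp]
    have := mul_nonneg (Nat.cast_nonneg (α := ℝ) N) (DD_nonneg (K0 := K0) (K1 := K1) (x, t))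
    unfold WW
    linarith
  unfold FF
  apply tendsto_integral_of_dominated_convergence G
  · intro N
    exact (integrable_aux o r0 r1 hA h0 h1 ht _ ((continuous_DD_x t).const_smul (N : ℝ))
        (fun x => mul_nonneg (Nat.cast_nonneg N) (DD_nonneg _))).aestronglyMeasurable
  · exact hG
  · intro N
    exact Eventually.of_forall (hbd N)
  · refine Eventually.of_forall fun x => ?_
    by_cases hx : x ∈ closure (Kc K0 K1 t)
    · have hd : DD K0 K1 (x, t) = 0 := by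
        unfold DD
        simp only
        rw [cl_of_mem ht]
        exact (Metric.mem_closure_iff_infDist_zero (Kc_nonempty hne0 hne1 t)).1 hx
      simp only [hd, mul_zero, add_zero]
      rw [indicator_of_mem hx]
      exact tendsto_const_nhds
    · rw [indicator_of_notMem hx]
      have hd : 0 < DD K0 K1 (x, t) := by
        rcases (DD_nonneg (K0 := K0) (K1 := K1) (x, t)).eq_or_lt with h | h
        · exfalso
          apply hx
          rw [Metric.mem_closure_iff_infDist_zero (Kc_nonempty hne0 hne1 t)]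
          unfold DD at h
          simp only at h
          rw [cl_of_mem ht] at h
          exact h.symm
        · exact h
      apply Real.tendsto_exp_atBot.comp
      apply tendsto_neg_atTop_atBot.comp
      apply tendsto_atTop_add_const_left
      exact tendsto_natCast_atTop_atTop.atTop_mul_const hd

end final

end main

/-- module `Sets` -/
theorem sets (hLC : LCsmooth) : JLCr := by
  intro n d o A K0 K1 r0 r1 a0 a1 t hA hc0 hc1 hne0 hne1 hs0 hs1 hb0 hb1 h0 h1 ht0 ht1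
  obtain ⟨R0, hR0⟩ := hb0.exists_norm_le
  obtain ⟨R1, hR1⟩ := hb1.exists_norm_le
  have hC1 : ∀ u ∈ K0, ∀ v ∈ K1, ‖v - u‖ ≤ |R0| + |R1| := by
    intro u hu v hv
    have h2 := norm_sub_le v u
    have h3 := hR0 u hu
    have h4 := hR1 v hv
    have h5 := le_abs_self R0
    have h6 := le_abs_self R1
    linarith
  have hlip := DD_lip hne0 hne1 (by positivity) hC1
  have hC0 : (0 : ℝ) ≤ 1 + (|R0| + |R1|) := by positivity
  have ht : t ∈ Icc (0 : ℝ) 1 := ⟨ht0.le, ht1.le⟩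
  have z0 : ∀ x ∈ K0, DD K0 K1 (x, 0) = 0 := by
    intro x hx
    obtain ⟨v, hv⟩ := hne1
    unfold DD
    simp only
    rw [cl_of_mem ⟨le_refl _, zero_le_one⟩]
    apply Metric.infDist_zero_of_mem
    exact mem_Kc.2 ⟨x, hx, v, hv, by simp⟩
  have z1 : ∀ x ∈ K1, DD K0 K1 (x, 1) = 0 := by
    intro x hx
    obtain ⟨u, hu⟩ := hne0
    unfold DD
    simp only
    rw [cl_of_mem ⟨zero_le_one, le_refl _⟩]
    apply Metric.infDist_zero_of_mem
    exact mem_Kc.2 ⟨u, hu, x, hx, by simp⟩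
  have w0 : ∀ x, WW o A a0 a1 r0 r1 0 x = pot o A a0 r0 x := by
    intro x
    unfold WW
    congr 1
    · ring
    · funext k
      ring
  have w1 : ∀ x, WW o A a0 a1 r0 r1 1 x = pot o A a1 r1 x := by
    intro x
    unfold WW
    congr 1
    · ring
    · funext k
      ring
  have wt : ∀ x, WW o A a0 a1 r0 r1 t x =
      pot o A ((1 - t) * a0 + t * a1) (fun k => (1 - t) * r0 k + t * r1 k) x := by
    intro x
    unfold WW
    congr 1
    · ring
    · funext k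
      ring
  have hlim := FF_tendsto o r0 r1 hA h0 h1 hc0 hc1 hne0 hne1 ht
  simp only [wt] at hlim
  refine ge_of_tendsto' hlim ?_
  intro N
  have hN : (0 : ℝ) ≤ N := Nat.cast_nonneg N
  refine le_trans ?_ (FF_ends o r0 r1 hLC hA h0 h1 hc0 hc1 hne0 hne1 hs0 hs1 hC0 hlip hN ht0 ht1)
  have b0 := setIntegral_le_FF o r0 r1 hA h0 h1 hN (s := 0) ⟨le_refl _, zero_le_one⟩ hc0 z0
  have b1 := setIntegral_le_FF o r0 r1 hA h0 h1 hN (s := 1) ⟨zero_le_one, le_refl _⟩ hc1 z1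
  simp only [w0] at b0
  simp only [w1] at b1
  have n0 : 0 ≤ ∫ x in K0, Real.exp (-pot o A a0 r0 x) :=
    integral_nonneg (fun x => (Real.exp_pos _).le)
  have n1 : 0 ≤ ∫ x in K1, Real.exp (-pot o A a1 r1 x) :=
    integral_nonneg (fun x => (Real.exp_pos _).le)
  exact mul_le_mul (Real.rpow_le_rpow n0 b0 (by linarith)) (Real.rpow_le_rpow n1 b1 ht0.le)
    (Real.rpow_nonneg n1 _) (Real.rpow_nonneg (n0.trans b0) _)

end H67
end Pool.Agent.Lib.MP_2d002d_gt
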