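import Pool.Agent.Lib.MP_2d002d_gt.Interfaces

/-!
# module Thorin of MP_2d002d_gt (helper67)

`exp (-c |x|^p)`, `0 < p < 2`, is a limit of finite products of `(1 + x²/a)^{-w}`.  The proof uses
the function `h s = ∑_{j ∈ ℤ} e^{α l j} log (1 + s e^{-l j})`, which satisfies
`h (e^{l i}) = e^{α l i} h 1` and is monotone, hence `h s / h 1 → s^α` for `l → 0`.
-/

set_option autoImplicit false

open MeasureTheory Set Filter Topology

namespace Pool.Agent.Lib.MP_2d002d_gt
namespace H67

/-- the terms -/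
noncomputable def tm (α l s : ℝ) (j : ℤ) : ℝ :=
  Real.exp (α * l * j) * Real.log (1 + s * Real.exp (-(l * j)))

lemma tm_nonneg (α l : ℝ) {s : ℝ} (hs : 0 ≤ s) (j : ℤ) : 0 ≤ tm α l s j := by
  unfold tm
  apply mul_nonneg (Real.exp_pos _).le
  apply Real.log_nonneg
  have := mul_nonneg hs (Real.exp_pos (-(l * j))).le
  linarith

lemma tm_mono (α l : ℝ) {s s' : ℝ} (hs : 0 ≤ s) (h : s ≤ s') (j : ℤ) :
    tm α l s j ≤ tm α l s' j := by
  unfold tm
  apply mul_le_mul_of_nonneg_left _ (Real.exp_pos _).le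
  have h1 := mul_nonneg hs (Real.exp_pos (-(l * j))).le
  have h2 := mul_le_mul_of_nonneg_right h (Real.exp_pos (-(l * j))).le
  apply Real.log_le_log (by linarith)
  linarith

lemma tm_summable {α l : ℝ} (hα0 : 0 < α) (hα1 : α < 1) (hl : 0 < l) {s : ℝ} (hs : 0 ≤ s) :
    Summable (tm α l s) := by
  apply Summable.of_nat_of_neg_add_one
  · -- j ≥ 0
    have hr : Summable (fun k : ℕ => s * (Real.exp (-((1 - α) * l))) ^ k) := by
      apply Summable.mul_left
      apply summable_geometric_of_lt_one (Real.exp_pos _).le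
      rw [Real.exp_lt_one_iff]
      have : 0 < (1 - α) * l := mul_pos (by linarith) hl
      linarith
    apply Summable.of_nonneg_of_le (fun k => tm_nonneg α l hs _) _ hr
    intro k
    unfold tm
    have h1 : Real.log (1 + s * Real.exp (-(l * ((k : ℤ) : ℝ)))) ≤
        s * Real.exp (-(l * ((k : ℤ) : ℝ))) := by
      have h2 := mul_nonneg hs (Real.exp_pos (-(l * ((k : ℤ) : ℝ)))).le
      have := Real.log_le_sub_one_of_pos
        (by linarith : (0 : ℝ) < 1 + s * Real.exp (-(l * ((k : ℤ) : ℝ))))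
      linarith
    calc _ ≤ Real.exp (α * l * ((k : ℤ) : ℝ)) * (s * Real.exp (-(l * ((k : ℤ) : ℝ)))) :=
          mul_le_mul_of_nonneg_left h1 (Real.exp_pos _).le
      _ = s * (Real.exp (α * l * ((k : ℤ) : ℝ)) * Real.exp (-(l * ((k : ℤ) : ℝ)))) := by ring
      _ = s * Real.exp (-((1 - α) * l)) ^ k := by
          rw [← Real.exp_add, ← Real.exp_nat_mul]
          congr 2
          push_cast
          ring
  · -- j < 0
    have hr : Summable (fun k : ℕ => ((1 + s) ^ (α / 2) / (α / 2)) *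
        (Real.exp (-(α / 2 * l))) ^ k) := by
      apply Summable.mul_left
      apply summable_geometric_of_lt_one (Real.exp_pos _).le
      rw [Real.exp_lt_one_iff]
      have : 0 < α / 2 * l := by positivity
      linarith
    apply Summable.of_nonneg_of_le (fun k => tm_nonneg α l hs _) _ hr
    intro k
    unfold tm
    set K : ℝ := (k : ℝ) + 1 with hK
    have e1 : ((-((k : ℤ) + 1) : ℤ) : ℝ) = -K := by push_cast; rw [hK]
    rw [e1]
    have hE : 1 ≤ Real.exp (l * K) := by
      rw [← Real.exp_zero, Real.exp_le_exp]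
      positivity
    have h1 : Real.log (1 + s * Real.exp (-(l * -K))) ≤
        ((1 + s) * Real.exp (l * K)) ^ (α / 2) / (α / 2) := by
      have e2 : -(l * -K) = l * K := by ring
      rw [e2]
      have h3 : 1 + s * Real.exp (l * K) ≤ (1 + s) * Real.exp (l * K) := by nlinarith
      have h4 : 0 < 1 + s * Real.exp (l * K) := by positivity
      refine (Real.log_le_log h4 h3).trans ?_
      exact Real.log_le_rpow_div (by positivity) (by positivity)
    refine (mul_le_mul_of_nonneg_left h1 (Real.exp_pos _).le).trans ?_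
    rw [Real.mul_rpow (by linarith) (Real.exp_pos _).le, ← Real.exp_mul]
    have e3 : Real.exp (α * l * -K) * ((1 + s) ^ (α / 2) * Real.exp (l * K * (α / 2)) / (α / 2)) =
        (1 + s) ^ (α / 2) / (α / 2) * (Real.exp (α * l * -K) * Real.exp (l * K * (α / 2))) := by
      ring
    rw [e3, ← Real.exp_add, ← Real.exp_nat_mul]
    apply mul_le_mul_of_nonneg_left _ (by positivity)
    rw [Real.exp_le_exp]
    rw [hK]
    have : 0 < α * l := by positivity
    nlinarith

/-- the sum -/
noncomputable def hh (α l s : ℝ) : ℝ := ∑' j : ℤ, tm α l s j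

lemma hh_mono {α l : ℝ} (hα0 : 0 < α) (hα1 : α < 1) (hl : 0 < l) {s s' : ℝ} (hs : 0 ≤ s)
    (h : s ≤ s') : hh α l s ≤ hh α l s' :=
  Summable.tsum_le_tsum (fun j => tm_mono α l hs h j) (tm_summable hα0 hα1 hl hs)
    (tm_summable hα0 hα1 hl (hs.trans h))

lemma hh_pos {α l : ℝ} (hα0 : 0 < α) (hα1 : α < 1) (hl : 0 < l) : 0 < hh α l 1 := by
  have h1 : tm α l 1 0 ≤ hh α l 1 :=
    (tm_summable hα0 hα1 hl zero_le_one).le_tsum 0 (fun j _ => tm_nonneg α l zero_le_one j)
  have h2 : 0 < tm α l 1 0 := by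
    unfold tm
    have : 0 < Real.log 2 := Real.log_pos (by norm_num)
    simp only [Int.cast_zero, mul_zero, Real.exp_zero, neg_zero, one_mul]
    norm_num
    exact this
  linarith

lemma hh_exp {α l : ℝ} (i : ℤ) : hh α l (Real.exp (l * i)) = Real.exp (α * l * i) * hh α l 1 := by
  unfold hh
  rw [← (Equiv.addRight i).tsum_eq, ← tsum_mul_left]
  apply tsum_congr
  intro j
  unfold tm
  simp only [Equiv.coe_addRight, Int.cast_add]
  rw [one_mul, ← Real.exp_add]
  have e1 : l * (i : ℝ) + -(l * ((j : ℝ) + i)) = -(l * j) := by ring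
  have e2 : α * l * ((j : ℝ) + i) = α * l * i + α * l * j := by ring
  rw [e1, e2, Real.exp_add, mul_assoc]

lemma hh_ratio {α l : ℝ} (hα0 : 0 < α) (hα1 : α < 1) (hl : 0 < l) {s : ℝ} (hs : 0 < s) :
    s ^ α * Real.exp (-(α * l)) ≤ hh α l s / hh α l 1 ∧
      hh α l s / hh α l 1 ≤ s ^ α * Real.exp (α * l) := by
  set i : ℤ := ⌊Real.log s / l⌋ with hi
  have h1 : (i : ℝ) ≤ Real.log s / l := Int.floor_le _
  have h2 : Real.log s / l < i + 1 := Int.lt_floor_add_one _
  rw [le_div_iff₀ hl] at h1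
  rw [div_lt_iff₀ hl] at h2
  have hlog : Real.exp (Real.log s) = s := Real.exp_log hs
  have h3 : Real.exp (l * i) ≤ s := by
    rw [← hlog, Real.exp_le_exp]
    linarith
  have h4 : s ≤ Real.exp (l * ((i + 1 : ℤ) : ℝ)) := by
    rw [← hlog, Real.exp_le_exp]
    push_cast
    linarith
  have h5 := hh_mono hα0 hα1 hl (Real.exp_pos _).le h3
  have h6 := hh_mono hα0 hα1 hl hs.le h4
  rw [hh_exp] at h5 h6
  have hp := hh_pos hα0 hα1 hl
  have hsα : s ^ α = Real.exp (α * Real.log s) := by
    rw [Real.rpow_def_of_pos hs, mul_comm]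
  have hα1' : α * (l * i) ≤ α * Real.log s := mul_le_mul_of_nonneg_left (by linarith) hα0.le
  have hα2' : α * Real.log s ≤ α * ((i + 1) * l) := mul_le_mul_of_nonneg_left (by linarith) hα0.le
  constructor
  · rw [le_div_iff₀ hp]
    refine le_trans ?_ h5
    apply mul_le_mul_of_nonneg_right _ hp.le
    rw [hsα, ← Real.exp_add, Real.exp_le_exp]
    linarith
  · rw [div_le_iff₀ hp]
    refine h6.trans ?_
    apply mul_le_mul_of_nonneg_right _ hp.le
    rw [hsα, ← Real.exp_add, Real.exp_le_exp]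
    push_cast
    linarith

lemma exists_finset {α l : ℝ} (hα0 : 0 < α) (hα1 : α < 1) (hl : 0 < l) {S ε : ℝ} (hS : 0 ≤ S)
    (hε : 0 < ε) : ∃ F : Finset ℤ, ∀ s, 0 ≤ s → s ≤ S →
      hh α l s - ε ≤ ∑ j ∈ F, tm α l s j ∧ ∑ j ∈ F, tm α l s j ≤ hh α l s := by
  have hsum := tm_summable hα0 hα1 hl hS
  have h1 := hsum.hasSum
  rw [HasSum, SummationFilter.unconditional_filter, Metric.tendsto_atTop] at h1
  obtain ⟨F, hF⟩ := h1 ε hε
  have h2 := hF F (le_refl F)
  rw [Real.dist_eq, abs_lt] at h2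
  refine ⟨F, ?_⟩
  intro s hs hsS
  have hss := tm_summable hα0 hα1 hl hs
  constructor
  · have h3 : Summable (fun j => tm α l S j - tm α l s j) := hsum.sub hss
    have h4 := h3.sum_le_tsum F (fun j _ => sub_nonneg.2 (tm_mono α l hs hsS j))
    rw [Finset.sum_sub_distrib, hsum.tsum_sub hss] at h4
    unfold hh
    linarith [h2.1]
  · exact hss.sum_le_tsum F (fun j _ => tm_nonneg α l hs j)

theorem thorin : Thorin := by
  intro c p hc hp hp2
  set α := p / 2 with hα
  have hα0 : 0 < α := by positivity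
  have hα1 : α < 1 := by rw [hα]; linarith
  set l : ℕ → ℝ := fun N => 1 / ((N : ℝ) + 1) with hl
  have hl0 : ∀ N, 0 < l N := fun N => by rw [hl]; positivity
  have hex : ∀ N : ℕ, ∃ F : Finset ℤ, ∀ s, 0 ≤ s → s ≤ (N : ℝ) →
      hh α (l N) s - hh α (l N) 1 * l N ≤ ∑ j ∈ F, tm α (l N) s j ∧
        ∑ j ∈ F, tm α (l N) s j ≤ hh α (l N) s := fun N =>
    exists_finset hα0 hα1 (hl0 N) (Nat.cast_nonneg N) (mul_pos (hh_pos hα0 hα1 (hl0 N)) (hl0 N))
  choose F hF using hex
  refine ⟨fun N => (F N).card, fun N j => Real.exp (l N * (((F N).equivFin.symm j : ℤ) : ℝ)),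
    fun N j => c * Real.exp (α * l N * (((F N).equivFin.symm j : ℤ) : ℝ)) / hh α (l N) 1,
    fun N j => Real.exp_pos _, fun N j => ?_, ?_⟩
  · have := hh_pos hα0 hα1 (hl0 N)
    positivity
  · intro x
    have hprod : ∀ N, ∏ j : Fin (F N).card,
        (1 + x ^ 2 / Real.exp (l N * (((F N).equivFin.symm j : ℤ) : ℝ))) ^
        (-(c * Real.exp (α * l N * (((F N).equivFin.symm j : ℤ) : ℝ)) / hh α (l N) 1)) =
        Real.exp (-(c / hh α (l N) 1 * ∑ j ∈ F N, tm α (l N) (x ^ 2) j)) := by
      intro N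
      rw [Equiv.prod_comp (F N).equivFin.symm (fun j : F N =>
        (1 + x ^ 2 / Real.exp (l N * ((j : ℤ) : ℝ))) ^
        (-(c * Real.exp (α * l N * ((j : ℤ) : ℝ)) / hh α (l N) 1)))]
      rw [Finset.prod_coe_sort (F N) (fun j : ℤ => (1 + x ^ 2 / Real.exp (l N * (j : ℝ))) ^
        (-(c * Real.exp (α * l N * (j : ℝ)) / hh α (l N) 1)))]
      rw [Finset.mul_sum, ← Finset.sum_neg_distrib, Real.exp_sum]
      apply Finset.prod_congr rfl
      intro j _
      have h1 : 0 < 1 + x ^ 2 / Real.exp (l N * (j : ℝ)) := by positivity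
      rw [Real.rpow_def_of_pos h1]
      congr 1
      unfold tm
      rw [Real.exp_neg (l N * (j : ℝ)), ← div_eq_mul_inv]
      ring
    simp only [hprod]
    apply (Real.continuous_exp.tendsto _).comp
    apply Tendsto.neg
    by_cases hx : x = 0
    · subst hx
      have h0 : c * |(0 : ℝ)| ^ p = 0 := by
        rw [abs_zero, Real.zero_rpow hp.ne', mul_zero]
      rw [h0]
      have h1 : ∀ N : ℕ, c / hh α (l N) 1 * ∑ j ∈ F N, tm α (l N) ((0 : ℝ) ^ 2) j = 0 := by
        intro N
        have : ∀ j, tm α (l N) ((0 : ℝ) ^ 2) j = 0 := by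
          intro j
          unfold tm
          simp
        rw [Finset.sum_eq_zero (fun j _ => this j), mul_zero]
      simp only [h1]
      exact tendsto_const_nhds
    · have hx2 : 0 < x ^ 2 := by positivity
      have hxp : (x ^ 2) ^ α = |x| ^ p := by
        rw [← sq_abs, ← Real.rpow_natCast, ← Real.rpow_mul (abs_nonneg x)]
        congr 1
        rw [hα]
        push_cast
        ring
      rw [← hxp]
      have hlt : Tendsto l atTop (𝓝 0) := tendsto_one_div_add_atTop_nhds_zero_nat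
      have hlow : Tendsto (fun N => c * ((x ^ 2) ^ α * Real.exp (-(α * l N)) - l N)) atTop
          (𝓝 (c * (x ^ 2) ^ α)) := by
        have h1 : Tendsto (fun N => c * ((x ^ 2) ^ α * Real.exp (-(α * l N)) - l N)) atTop
          (𝓝 (c * ((x ^ 2) ^ α * Real.exp (-(α * 0)) - 0))) := by
          apply Tendsto.const_mul
          apply Tendsto.sub _ hlt
          apply Tendsto.const_mul
          exact (Real.continuous_exp.tendsto _).comp ((hlt.const_mul α).neg)
        simpa using h1
      have hup : Tendsto (fun N => c * ((x ^ 2) ^ α * Real.exp (α * l N))) atTop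
          (𝓝 (c * (x ^ 2) ^ α)) := by
        have h1 : Tendsto (fun N => c * ((x ^ 2) ^ α * Real.exp (α * l N))) atTop
          (𝓝 (c * ((x ^ 2) ^ α * Real.exp (α * 0)))) := by
          apply Tendsto.const_mul
          apply Tendsto.const_mul
          exact (Real.continuous_exp.tendsto _).comp (hlt.const_mul α)
        simpa using h1
      apply tendsto_of_tendsto_of_tendsto_of_le_of_le' hlow hup
      · filter_upwards [eventually_ge_atTop (⌈x ^ 2⌉₊)] with N hN
        have hxN : x ^ 2 ≤ (N : ℝ) := (Nat.le_ceil _).trans (Nat.cast_le.2 hN)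
        have h1 := (hF N (x ^ 2) hx2.le hxN).1
        have h2 := (hh_ratio hα0 hα1 (hl0 N) hx2).1
        have hp' := hh_pos hα0 hα1 (hl0 N)
        rw [le_div_iff₀ hp'] at h2
        rw [show c / hh α (l N) 1 * ∑ j ∈ F N, tm α (l N) (x ^ 2) j =
          (c * ∑ j ∈ F N, tm α (l N) (x ^ 2) j) / hh α (l N) 1 from by ring, le_div_iff₀ hp']
        have h3 : (x ^ 2) ^ α * Real.exp (-(α * l N)) * hh α (l N) 1 - hh α (l N) 1 * l N ≤
            ∑ j ∈ F N, tm α (l N) (x ^ 2) j := by linarith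
        have h4 := mul_le_mul_of_nonneg_left h3 hc.le
        linarith
      · filter_upwards [eventually_ge_atTop (⌈x ^ 2⌉₊)] with N hN
        have hxN : x ^ 2 ≤ (N : ℝ) := (Nat.le_ceil _).trans (Nat.cast_le.2 hN)
        have h1 := (hF N (x ^ 2) hx2.le hxN).2
        have h2 := (hh_ratio hα0 hα1 (hl0 N) hx2).2
        have hp' := hh_pos hα0 hα1 (hl0 N)
        rw [div_le_iff₀ hp'] at h2
        rw [show c / hh α (l N) 1 * ∑ j ∈ F N, tm α (l N) (x ^ 2) j =
          (c * ∑ j ∈ F N, tm α (l N) (x ^ 2) j) / hh α (l N) 1 from by ring, div_le_iff₀ hp']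
        have h4 := mul_le_mul_of_nonneg_left (h1.trans h2) hc.le
        linarith

end H67
end Pool.Agent.Lib.MP_2d002d_gt
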